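import Pool.Agent.Q156.TripleLinear

/-!
An origin-symmetric convex body in three-space whose intersection body is farther from the ball
in the Banach-Mazur distance.
-/

open MeasureTheory Metric Module Set
open scoped RealInnerProductSpace Real Pointwise

namespace Pool.Agent.Results.MP_4e5529_gt.DistanceIncreases

open Pool.Agent.Q156 Pool.Agent.Q156.Triple

section definitions

variable {V : Type*} [NormedAddCommGroup V] [InnerProductSpace ℝ V]

/-- The volume (Lebesgue measure of the Euclidean space `W`) of the section of `K` by the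
subspace `W`. -/
noncomputable def sectionVolume [FiniteDimensional ℝ V] [MeasurableSpace V] [BorelSpace V]
    (K : Set V) (W : Submodule ℝ V) : ℝ :=
  (volume ((fun y : W => (y : V)) ⁻¹' K)).toReal

/-- The intersection body: the point `x ≠ 0` belongs to it when `‖x‖` is at most the volume of the
section of `K` by the hyperplane orthogonal to `x`. -/
def intersectionBody [FiniteDimensional ℝ V] [MeasurableSpace V] [BorelSpace V]
    (K : Set V) : Set V :=
  {x | x = 0 ∨ ‖x‖ ≤ sectionVolume K (ℝ ∙ x)ᗮ}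

/-- The set of the numbers `r ≥ 1` such that `M ⊆ T L ⊆ r M` for some invertible linear map. -/
def bmSet (L M : Set V) : Set ℝ :=
  {r | 1 ≤ r ∧ ∃ T : V ≃ₗ[ℝ] V, M ⊆ T '' L ∧ T '' L ⊆ r • M}

/-- The Banach-Mazur distance. -/
noncomputable def bmDist (L M : Set V) : ℝ := sInf (bmSet L M)

end definitions

/-! ### The area estimate -/

theorem area_bound : volume {p : ℝ × ℝ | |p.1| ≤ 7 / 8 ∧ |p.2| ≤ 1 ∧ |p.1| + |p.2| ≤ 99 / 80} ≤
    ENNReal.ofReal 2.7 := by
  obtain ⟨g, hg⟩ : ∃ g : ℝ → ℝ, ∀ s, g s = min 1.001 (1.24 - |s|) := ⟨_, fun _ => rfl⟩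
  have hgc : Continuous g := by
    have : g = fun s => min 1.001 (1.24 - |s|) := funext hg
    rw [this]
    exact continuous_const.min (continuous_const.sub continuous_abs)
  have hsub : {p : ℝ × ℝ | |p.1| ≤ 7 / 8 ∧ |p.2| ≤ 1 ∧ |p.1| + |p.2| ≤ 99 / 80} ⊆
      regionBetween (fun s => -g s) g (Icc (-(7 / 8)) (7 / 8)) := by
    rintro ⟨s, t⟩ ⟨h1, h2, h3⟩
    simp only at h1 h2 h3
    have h4 : |t| < g s := by
      rw [hg]
      apply lt_min <;> linarith
    refine ⟨abs_le.mp h1, ?_⟩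
    exact abs_lt.mp h4
  refine (measure_mono hsub).trans ?_
  have hpos : ∀ s ∈ Icc (-(7 / 8) : ℝ) (7 / 8), -g s ≤ g s := by
    intro s hs
    have h1 : |s| ≤ 7 / 8 := abs_le.mpr hs
    have h2 : 0 ≤ g s := by
      rw [hg]
      apply le_min <;> linarith
    linarith
  have hvol : volume (regionBetween (fun s => -g s) g (Icc (-(7 / 8) : ℝ) (7 / 8))) =
      ENNReal.ofReal (∫ y in Icc (-(7 / 8) : ℝ) (7 / 8), (g - fun s => -g s) y) := by
    apply volume_regionBetween_eq_integral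
    · exact hgc.neg.continuousOn.integrableOn_compact isCompact_Icc
    · exact hgc.continuousOn.integrableOn_compact isCompact_Icc
    · exact measurableSet_Icc
    · exact hpos
  rw [hvol]
  apply ENNReal.ofReal_le_ofReal
  rw [integral_Icc_eq_integral_Ioc, ← intervalIntegral.integral_of_le (by norm_num)]
  have hgi : ∀ a b : ℝ, IntervalIntegrable (g - fun s => -g s) volume a b := by
    intro a b
    apply Continuous.intervalIntegrable
    exact hgc.sub hgc.neg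
  rw [← intervalIntegral.integral_add_adjacent_intervals (hgi (-(7 / 8)) (-0.239)) (hgi _ _),
    ← intervalIntegral.integral_add_adjacent_intervals (hgi (-0.239) 0.239) (hgi _ _)]
  have i1 : ∫ y in (-(7 / 8) : ℝ)..(-0.239), (g - fun s => -g s) y ≤
      ∫ y in (-(7 / 8) : ℝ)..(-0.239), (2.48 + 2 * y) := by
    apply intervalIntegral.integral_mono_on (by norm_num) (hgi _ _)
      (by apply Continuous.intervalIntegrable; fun_prop)
    intro y hy
    simp only [Pi.sub_apply, hg]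
    have h1 := min_le_right 1.001 (1.24 - |y|)
    have h2 : |y| = -y := abs_of_nonpos (by linarith [hy.2])
    rw [h2] at h1 ⊢
    linarith
  have i2 : ∫ y in (-0.239 : ℝ)..(0.239), (g - fun s => -g s) y ≤
      ∫ y in (-0.239 : ℝ)..(0.239), (2 * 1.001 : ℝ) := by
    apply intervalIntegral.integral_mono_on (by norm_num) (hgi _ _)
      (by apply Continuous.intervalIntegrable; fun_prop)
    intro y hy
    simp only [Pi.sub_apply, hg]
    have h1 := min_le_left 1.001 (1.24 - |y|)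
    linarith
  have i3 : ∫ y in (0.239 : ℝ)..(7 / 8), (g - fun s => -g s) y ≤
      ∫ y in (0.239 : ℝ)..(7 / 8), (2.48 - 2 * y) := by
    apply intervalIntegral.integral_mono_on (by norm_num) (hgi _ _)
      (by apply Continuous.intervalIntegrable; fun_prop)
    intro y hy
    simp only [Pi.sub_apply, hg]
    have h1 := min_le_right 1.001 (1.24 - |y|)
    have h2 : |y| = y := abs_of_nonneg (by linarith [hy.1])
    rw [h2] at h1 ⊢
    linarith
  have j1 : ∫ y in (-(7 / 8) : ℝ)..(-0.239), (2.48 + 2 * y) =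
      2 * 1.24 * (7 / 8 - 0.239) + (0.239 ^ 2 - (7 / 8) ^ 2) := by
    rw [intervalIntegral.integral_add (by simp) (by apply Continuous.intervalIntegrable; fun_prop),
      intervalIntegral.integral_const_mul, integral_id, intervalIntegral.integral_const]
    norm_num
  have j2 : ∫ y in (-0.239 : ℝ)..(0.239), (2 * 1.001 : ℝ) = 2 * 1.001 * (2 * 0.239) := by
    rw [intervalIntegral.integral_const]
    norm_num
  have j3 : ∫ y in (0.239 : ℝ)..(7 / 8), (2.48 - 2 * y) =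
      2 * 1.24 * (7 / 8 - 0.239) + (0.239 ^ 2 - (7 / 8) ^ 2) := by
    rw [intervalIntegral.integral_sub (by simp) (by apply Continuous.intervalIntegrable; fun_prop),
      intervalIntegral.integral_const_mul, integral_id, intervalIntegral.integral_const]
    norm_num
  rw [j1] at i1
  rw [j2] at i2
  rw [j3] at i3
  refine (add_le_add i1 (add_le_add i2 i3)).trans ?_
  norm_num

/-! ### The body -/

/-- The body. -/
def KK : Set E3 :=
  {x | ‖x‖ ≤ 1 ∧ |x 0| + |x 1| ≤ √2 * (7 / 8) ∧ |x 0| + |x 1| + √2 * |x 2| ≤ 7 / 4}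

theorem two_sq : (√2 : ℝ) ^ 2 = 2 := Real.sq_sqrt (by norm_num)

theorem le_of_sq {a b : ℝ} (hb : 0 ≤ b) (h : a ^ 2 ≤ b ^ 2) : a ≤ b :=
  (le_abs_self a).trans (abs_le_of_sq_le_sq h hb)

theorem ball_subset_KK : closedBall (0 : E3) (7 / 8) ⊆ KK := by
  intro x hx
  rw [mem_closedBall_zero_iff] at hx
  have hn := norm_E3 x
  have hn0 := norm_nonneg x
  have hn2 : ‖x‖ ^ 2 ≤ (7 / 8) ^ 2 := by gcongr
  have h2 := two_sq
  have h2p : (0 : ℝ) ≤ √2 := Real.sqrt_nonneg 2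
  have a0 := sq_abs (x 0)
  have a1 := sq_abs (x 1)
  have a2 := sq_abs (x 2)
  refine ⟨by linarith, ?_, ?_⟩
  · apply le_of_sq (by positivity)
    nlinarith [sq_nonneg (|x 0| - |x 1|), sq_nonneg (x 2)]
  · apply le_of_sq (by norm_num)
    obtain ⟨t, ht⟩ : ∃ t, t = √2 * |x 2| := ⟨_, rfl⟩
    have ht2 : t ^ 2 = 2 * (x 2) ^ 2 := by rw [ht, mul_pow, h2, a2]
    rw [← ht]
    nlinarith [sq_nonneg (|x 0| - |x 1|), sq_nonneg (2 * |x 0| - t), sq_nonneg (2 * |x 1| - t)]

theorem KK_subset_ball : KK ⊆ closedBall (0 : E3) 1 := by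
  intro x hx
  rw [mem_closedBall_zero_iff]
  exact hx.1

theorem KK_closed : IsClosed KK := by
  have h : KK = {x : E3 | ‖x‖ ≤ 1} ∩ ({x : E3 | |x 0| + |x 1| ≤ √2 * (7 / 8)} ∩
      {x : E3 | |x 0| + |x 1| + √2 * |x 2| ≤ 7 / 4}) := rfl
  rw [h]
  have c0 := (continuous_coord3 0).abs
  have c1 := (continuous_coord3 1).abs
  have c2 := (continuous_coord3 2).abs
  apply (isClosed_le continuous_norm continuous_const).inter
  apply (isClosed_le (c0.add c1) continuous_const).inter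
  exact isClosed_le ((c0.add c1).add (continuous_const.mul c2)) continuous_const

theorem KK_compact : IsCompact KK :=
  (isCompact_closedBall (0 : E3) 1).of_isClosed_subset KK_closed KK_subset_ball

theorem KK_convex : Convex ℝ KK := by
  intro x hx y hy a b ha hb hab
  obtain ⟨x1, x2, x3⟩ := hx
  obtain ⟨y1, y2, y3⟩ := hy
  have hc : ∀ i : Fin 3, |(a • x + b • y) i| ≤ a * |x i| + b * |y i| := by
    intro i
    have h1 : (a • x + b • y) i = a * x i + b * y i := rfl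
    rw [h1]
    refine (abs_add_le _ _).trans ?_
    rw [abs_mul, abs_mul, abs_of_nonneg ha, abs_of_nonneg hb]
  have h2p : (0 : ℝ) ≤ √2 := Real.sqrt_nonneg 2
  refine ⟨?_, ?_, ?_⟩
  · calc ‖a • x + b • y‖ ≤ ‖a • x‖ + ‖b • y‖ := norm_add_le _ _
      _ = a * ‖x‖ + b * ‖y‖ := by
        rw [norm_smul, norm_smul, Real.norm_of_nonneg ha, Real.norm_of_nonneg hb]
      _ ≤ a * 1 + b * 1 := by gcongr
      _ = 1 := by linarith
  · calc |(a • x + b • y) 0| + |(a • x + b • y) 1| ≤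
        (a * |x 0| + b * |y 0|) + (a * |x 1| + b * |y 1|) := add_le_add (hc 0) (hc 1)
      _ = a * (|x 0| + |x 1|) + b * (|y 0| + |y 1|) := by ring
      _ ≤ a * (√2 * (7 / 8)) + b * (√2 * (7 / 8)) := by gcongr
      _ = √2 * (7 / 8) := by rw [← add_mul, hab, one_mul]
  · calc |(a • x + b • y) 0| + |(a • x + b • y) 1| + √2 * |(a • x + b • y) 2| ≤
        (a * |x 0| + b * |y 0|) + (a * |x 1| + b * |y 1|) + √2 * (a * |x 2| + b * |y 2|) :=
          add_le_add (add_le_add (hc 0) (hc 1)) (mul_le_mul_of_nonneg_left (hc 2) h2p)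
      _ = a * (|x 0| + |x 1| + √2 * |x 2|) + b * (|y 0| + |y 1| + √2 * |y 2|) := by ring
      _ ≤ a * (7 / 4) + b * (7 / 4) := by gcongr
      _ = 7 / 4 := by rw [← add_mul, hab, one_mul]

theorem KK_symm : ∀ x ∈ KK, -x ∈ KK := by
  rintro x ⟨h1, h2, h3⟩
  have hc : ∀ i : Fin 3, |(-x) i| = |x i| := by
    intro i
    have : (-x) i = -(x i) := rfl
    rw [this, abs_neg]
  refine ⟨by rwa [norm_neg], ?_, ?_⟩
  · rw [hc, hc]; exact h2
  · rw [hc, hc, hc]; exact h3

/-! ### Section volumes -/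

theorem finrank_perp' (u : E3) (hu : u ≠ 0) : finrank ℝ (ℝ ∙ u)ᗮ = 2 := by
  have h1 : finrank ℝ (ℝ ∙ u) = 1 := finrank_span_singleton hu
  have h2 := Submodule.finrank_add_finrank_orthogonal (ℝ ∙ u)
  rw [finrank_euclideanSpace_fin, h1] at h2
  omega

theorem disc_volume (W : Submodule ℝ E3) (hW : finrank ℝ W = 2) (r : ℝ) (hr : 0 ≤ r) :
    volume (closedBall (0 : W) r) = ENNReal.ofReal (r ^ 2 * π) := by
  have : Nontrivial W := Module.nontrivial_of_finrank_pos (R := ℝ) (by rw [hW]; norm_num)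
  rw [InnerProductSpace.volume_closedBall_of_dim_even (k := 1) (by rw [hW]), hW,
    ← ENNReal.ofReal_pow hr, ← ENNReal.ofReal_mul (by positivity)]
  simp

theorem sectionVolume_le (W : Submodule ℝ E3) (hW : finrank ℝ W = 2) :
    sectionVolume KK W ≤ π := by
  unfold sectionVolume
  have hsub : (fun y : W => (y : E3)) ⁻¹' KK ⊆ closedBall (0 : W) 1 := by
    intro y hy
    rw [mem_closedBall_zero_iff]
    exact hy.1
  have h1 := measure_mono (μ := volume) hsub
  rw [disc_volume W hW 1 (by norm_num)] at h1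
  have h2 := ENNReal.toReal_mono ENNReal.ofReal_ne_top h1
  rw [ENNReal.toReal_ofReal (by positivity)] at h2
  linarith

theorem measure_ne_top (W : Submodule ℝ E3) (hW : finrank ℝ W = 2) :
    volume ((fun y : W => (y : E3)) ⁻¹' KK) ≠ ⊤ := by
  have hsub : (fun y : W => (y : E3)) ⁻¹' KK ⊆ closedBall (0 : W) 1 := by
    intro y hy
    rw [mem_closedBall_zero_iff]
    exact hy.1
  have h1 := measure_mono (μ := volume) hsub
  rw [disc_volume W hW 1 (by norm_num)] at h1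
  exact ne_top_of_le_ne_top ENNReal.ofReal_ne_top h1

theorem le_sectionVolume (W : Submodule ℝ E3) (hW : finrank ℝ W = 2) (r : ℝ) (hr : 0 ≤ r)
    (h : ∀ y : W, ‖y‖ ≤ r → (y : E3) ∈ KK) : r ^ 2 * π ≤ sectionVolume KK W := by
  unfold sectionVolume
  have hsub : closedBall (0 : W) r ⊆ (fun y : W => (y : E3)) ⁻¹' KK := by
    intro y hy
    rw [mem_closedBall_zero_iff] at hy
    exact h y hy
  have h1 := measure_mono (μ := volume) hsub
  rw [disc_volume W hW r hr] at h1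
  have h2 := ENNReal.toReal_mono (measure_ne_top W hW) h1
  rwa [ENNReal.toReal_ofReal (by positivity)] at h2

theorem le_sectionVolume' (W : Submodule ℝ E3) (hW : finrank ℝ W = 2) :
    (7 / 8) ^ 2 * π ≤ sectionVolume KK W := by
  apply le_sectionVolume W hW _ (by norm_num)
  intro y hy
  apply ball_subset_KK
  rw [mem_closedBall_zero_iff]
  exact hy

/-- Sections by the coordinate planes containing the third axis are full discs. -/
theorem full_section (u : E3) (hu : u = !₂[1, 0, 0] ∨ u = !₂[0, 1, 0]) :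
    sectionVolume KK (ℝ ∙ u)ᗮ = π := by
  have hu0 : u ≠ 0 := by
    rcases hu with rfl | rfl
    · intro h
      have := congrArg (fun x : E3 => x 0) h
      simp at this
    · intro h
      have := congrArg (fun x : E3 => x 1) h
      simp at this
  have hW := finrank_perp' u hu0
  apply le_antisymm (sectionVolume_le _ hW)
  have h1 := le_sectionVolume (ℝ ∙ u)ᗮ hW 1 (by norm_num) (by
    intro y hy
    have hy' : ‖(y : E3)‖ ≤ 1 := hy
    have hn := norm_E3 (y : E3)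
    have hn0 := norm_nonneg (y : E3)
    have hn2 : ‖(y : E3)‖ ^ 2 ≤ 1 := by nlinarith
    have h2 := two_sq
    have h2p : (0 : ℝ) ≤ √2 := Real.sqrt_nonneg 2
    have hmem := (mem_perp u (y : E3)).mp y.2
    -- all that matters is that one of the first two coordinates vanishes
    have key : ∀ p q r : ℝ, p ^ 2 + q ^ 2 + r ^ 2 ≤ 1 → (p = 0 ∨ q = 0) →
        |p| + |q| ≤ √2 * (7 / 8) ∧ |p| + |q| + √2 * |r| ≤ 7 / 4 := by
      intro p q r hpqr hpq
      obtain ⟨w, hw0, hw⟩ : ∃ w : ℝ, 0 ≤ w ∧ |p| + |q| = w ∧ w ^ 2 = p ^ 2 + q ^ 2 := by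
        rcases hpq with rfl | rfl
        · exact ⟨|q|, abs_nonneg q, by simp, by simp⟩
        · exact ⟨|p|, abs_nonneg p, by simp, by simp⟩
      rw [hw.1]
      have hr := sq_abs r
      constructor
      · apply le_of_sq (by positivity)
        nlinarith [hw.2, sq_nonneg r]
      · apply le_of_sq (by norm_num)
        obtain ⟨t, ht⟩ : ∃ t, t = √2 * |r| := ⟨_, rfl⟩
        have ht2 : t ^ 2 = 2 * r ^ 2 := by rw [ht, mul_pow, h2, hr]
        rw [← ht]
        nlinarith [sq_nonneg (2 * w - t), hw.2]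
    have hk := key ((y : E3) 0) ((y : E3) 1) ((y : E3) 2) (by rw [← hn]; exact hn2) (by
      rcases hu with rfl | rfl
      · left; simpa using hmem
      · right; simpa using hmem)
    exact ⟨hy', hk.1, hk.2⟩)
  linarith

/-- The isometric parametrisation of the plane orthogonal to `(1, -σ, 0)`. -/
theorem exists_param (u : E3) (σ : ℝ) (hσ : σ ^ 2 = 1) (hu : u = !₂[1, -σ, 0]) :
    ∃ ψ : EuclideanSpace ℝ (Fin 2) ≃ₗᵢ[ℝ] (ℝ ∙ u)ᗮ, ∀ a,
      ((ψ a : (ℝ ∙ u)ᗮ) : E3) 0 = a 0 / √2 ∧ ((ψ a : (ℝ ∙ u)ᗮ) : E3) 1 = σ * a 0 / √2 ∧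
      ((ψ a : (ℝ ∙ u)ᗮ) : E3) 2 = a 1 := by
  have h2 := two_sq
  have h2p : (0 : ℝ) < √2 := Real.sqrt_pos.mpr (by norm_num)
  have hu0 : u ≠ 0 := by
    rw [hu]
    intro h
    have := congrArg (fun x : E3 => x 0) h
    simp at this
  have hmem : ∀ a : EuclideanSpace ℝ (Fin 2),
      (!₂[a 0 / √2, σ * a 0 / √2, a 1] : E3) ∈ (ℝ ∙ u)ᗮ := by
    intro a
    rw [mem_perp, hu]
    change 1 * (a 0 / √2) + -σ * (σ * a 0 / √2) + 0 * a 1 = 0
    have : 1 * (a 0 / √2) + -σ * (σ * a 0 / √2) + 0 * a 1 = (a 0 / √2) * (1 - σ ^ 2) := by ring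
    rw [this, hσ]; ring
  let f : EuclideanSpace ℝ (Fin 2) →ₗ[ℝ] (ℝ ∙ u)ᗮ :=
    { toFun := fun a => ⟨!₂[a 0 / √2, σ * a 0 / √2, a 1], hmem a⟩
      map_add' := by
        intro a b
        apply Subtype.ext
        apply ext3
        · change (a 0 + b 0) / √2 = a 0 / √2 + b 0 / √2
          ring
        · change σ * (a 0 + b 0) / √2 = σ * a 0 / √2 + σ * b 0 / √2
          ring
        · rfl
      map_smul' := by
        intro c a
        apply Subtype.ext
        apply ext3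
        · change (c * a 0) / √2 = c * (a 0 / √2)
          ring
        · change σ * (c * a 0) / √2 = c * (σ * a 0 / √2)
          ring
        · rfl }
  have hf0 : ∀ a, ((f a : (ℝ ∙ u)ᗮ) : E3) 0 = a 0 / √2 := fun a => rfl
  have hf1 : ∀ a, ((f a : (ℝ ∙ u)ᗮ) : E3) 1 = σ * a 0 / √2 := fun a => rfl
  have hf2 : ∀ a, ((f a : (ℝ ∙ u)ᗮ) : E3) 2 = a 1 := fun a => rfl
  have hn : ∀ a, ‖f a‖ = ‖a‖ := by
    intro a
    have h : ‖((f a : (ℝ ∙ u)ᗮ) : E3)‖ ^ 2 = ‖a‖ ^ 2 := by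
      rw [norm_E3, hf0, hf1, hf2, EuclideanSpace.real_norm_sq_eq, Fin.sum_univ_two, div_pow,
        div_pow, h2, mul_pow, hσ]
      ring
    exact (sq_eq_sq₀ (norm_nonneg _) (norm_nonneg _)).mp h
  let fi : EuclideanSpace ℝ (Fin 2) →ₗᵢ[ℝ] (ℝ ∙ u)ᗮ := ⟨f, hn⟩
  refine ⟨fi.toLinearIsometryEquiv (by rw [finrank_perp' u hu0, finrank_euclideanSpace_fin]), ?_⟩
  intro a
  exact ⟨hf0 a, hf1 a, hf2 a⟩

theorem small_section (u : E3) (σ : ℝ) (hσ : σ ^ 2 = 1) (hu : u = !₂[1, -σ, 0]) :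
    sectionVolume KK (ℝ ∙ u)ᗮ ≤ 2.7 := by
  obtain ⟨ψ, hψ⟩ := exists_param u σ hσ hu
  have h2 := two_sq
  have h2p : (0 : ℝ) < √2 := Real.sqrt_pos.mpr (by norm_num)
  have h2u : √2 ≤ (99 / 70 : ℝ) := by
    rw [Real.sqrt_le_left (by norm_num)]; norm_num
  have hσa : |σ| = 1 := by
    have : |σ| ^ 2 = 1 := by rw [sq_abs, hσ]
    nlinarith [abs_nonneg σ]
  obtain ⟨S, hS⟩ : ∃ S : Set (ℝ ∙ u)ᗮ, S = (fun y : (ℝ ∙ u)ᗮ => (y : E3)) ⁻¹' KK := ⟨_, rfl⟩
  have hSm : MeasurableSet S := by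
    rw [hS]
    exact (KK_closed.preimage continuous_subtype_val).measurableSet
  have e1 : volume S = volume (ψ ⁻¹' S) := (ψ.measurePreserving.measure_preimage
    hSm.nullMeasurableSet).symm
  -- the parameter set, in the plane
  obtain ⟨Q, hQ⟩ : ∃ Q : Set (ℝ × ℝ),
      Q = {p : ℝ × ℝ | |p.1| ≤ 7 / 8 ∧ |p.2| ≤ 1 ∧ |p.1| + |p.2| ≤ 99 / 80} := ⟨_, rfl⟩
  have hQc : IsClosed Q := by
    rw [hQ]
    have h : {p : ℝ × ℝ | |p.1| ≤ 7 / 8 ∧ |p.2| ≤ 1 ∧ |p.1| + |p.2| ≤ 99 / 80} =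
        {p : ℝ × ℝ | |p.1| ≤ 7 / 8} ∩ ({p : ℝ × ℝ | |p.2| ≤ 1} ∩
          {p : ℝ × ℝ | |p.1| + |p.2| ≤ 99 / 80}) := rfl
    rw [h]
    apply (isClosed_le (by fun_prop) continuous_const).inter
    apply (isClosed_le (by fun_prop) continuous_const).inter
    exact isClosed_le (by fun_prop) continuous_const
  have hmp : MeasurePreserving
      ((MeasurableEquiv.finTwoArrow (α := ℝ)) ∘ (WithLp.ofLp (p := 2) (V := Fin 2 → ℝ))) :=
    (volume_preserving_finTwoArrow ℝ).comp (PiLp.volume_preserving_ofLp (Fin 2))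
  have e2 : volume Q = volume (((MeasurableEquiv.finTwoArrow (α := ℝ)) ∘
      (WithLp.ofLp (p := 2) (V := Fin 2 → ℝ))) ⁻¹' Q) :=
    (hmp.measure_preimage hQc.measurableSet.nullMeasurableSet).symm
  have hsub : ψ ⁻¹' S ⊆ ((MeasurableEquiv.finTwoArrow (α := ℝ)) ∘
      (WithLp.ofLp (p := 2) (V := Fin 2 → ℝ))) ⁻¹' Q := by
    intro a ha
    have ha' : ((ψ a : (ℝ ∙ u)ᗮ) : E3) ∈ KK := by
      rw [hS] at ha
      exact ha
    obtain ⟨h1, h2', h3⟩ := ha'
    obtain ⟨p0, p1, p2⟩ := hψ a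
    have hb1 : |((ψ a : (ℝ ∙ u)ᗮ) : E3) 2| ≤ 1 := by
      have := PiLp.norm_apply_le ((ψ a : (ℝ ∙ u)ᗮ) : E3) 2
      rw [Real.norm_eq_abs] at this
      exact this.trans h1
    have habs0 : |a 0 / √2| = |a 0| / √2 := by rw [abs_div, abs_of_pos h2p]
    have habs1 : |σ * a 0 / √2| = |a 0| / √2 := by
      rw [abs_div, abs_mul, hσa, one_mul, abs_of_pos h2p]
    have hsum : |a 0| / √2 + |a 0| / √2 = √2 * |a 0| := by
      field_simp
      rw [h2]; ring
    rw [p0, p1, habs0, habs1, hsum] at h2' h3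
    rw [p2] at h3 hb1
    have g1 : |a 0| ≤ 7 / 8 := le_of_mul_le_mul_left h2' h2p
    have g2 : |a 0| + |a 1| ≤ 99 / 80 := by
      have h4 : √2 * (|a 0| + |a 1|) ≤ 7 / 4 := by linarith
      have h5 : √2 * (√2 * (|a 0| + |a 1|)) ≤ √2 * (7 / 4) := mul_le_mul_of_nonneg_left h4 h2p.le
      have h6 : √2 * (√2 * (|a 0| + |a 1|)) = 2 * (|a 0| + |a 1|) := by
        rw [← mul_assoc, ← sq, h2]
      rw [h6] at h5
      linarith
    rw [hQ]
    exact ⟨g1, hb1, g2⟩
  have h7 : volume S ≤ ENNReal.ofReal 2.7 := by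
    rw [e1]
    refine (measure_mono hsub).trans ?_
    rw [← e2, hQ]
    exact area_bound
  unfold sectionVolume
  rw [← hS]
  have h8 := ENNReal.toReal_mono ENNReal.ofReal_ne_top h7
  rwa [ENNReal.toReal_ofReal (by norm_num)] at h8

theorem perp_smul (u : E3) (a : ℝ) (ha : a ≠ 0) : (ℝ ∙ (a • u))ᗮ = (ℝ ∙ u)ᗮ := by
  congr 1
  exact Submodule.span_singleton_smul_eq (IsUnit.mk0 a ha) u

/-! ### The distances -/

theorem mem_bmSet_KK : (8 / 7 : ℝ) ∈ bmSet KK (closedBall (0 : E3) 1) := by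
  refine ⟨by norm_num, LinearEquiv.smulOfNeZero ℝ E3 (8 / 7 : ℝ) (by norm_num), ?_, ?_⟩
  · intro x hx
    rw [mem_closedBall_zero_iff] at hx
    refine ⟨(7 / 8 : ℝ) • x, ?_, ?_⟩
    · apply ball_subset_KK
      rw [mem_closedBall_zero_iff, norm_smul, Real.norm_of_nonneg (by norm_num)]
      linarith
    · change (8 / 7 : ℝ) • ((7 / 8 : ℝ) • x) = x
      rw [smul_smul]; norm_num
  · rintro _ ⟨x, hx, rfl⟩
    exact ⟨x, KK_subset_ball hx, rfl⟩

theorem bmDist_KK_le : bmDist KK (closedBall (0 : E3) 1) ≤ 8 / 7 :=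
  csInf_le ⟨1, fun r hr => hr.1⟩ mem_bmSet_KK

theorem mem_smul_ball {x : E3} {r : ℝ} (h : x ∈ r • closedBall (0 : E3) 1) (hr : 0 ≤ r) :
    ‖x‖ ≤ r := by
  obtain ⟨y, hy, rfl⟩ := h
  rw [mem_closedBall_zero_iff] at hy
  change ‖r • y‖ ≤ r
  rw [norm_smul, Real.norm_of_nonneg hr]
  nlinarith

theorem le_of_mem_bmSet (r : ℝ) (hr : r ∈ bmSet (intersectionBody KK) (closedBall (0 : E3) 1)) :
    π / 2.7 ≤ r := by
  obtain ⟨hr1, T, hT1, hT2⟩ := hr
  have hpi := Real.pi_pos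
  have hr0 : 0 ≤ r := by linarith
  -- directions with full sections
  have hfull : ∀ u : E3, (u = !₂[1, 0, 0] ∨ u = !₂[0, 1, 0]) → π * ‖T u‖ ≤ r := by
    intro u hu
    have hun : ‖u‖ = 1 := by
      apply norm_one_of_sq
      rcases hu with rfl | rfl
      · change (1 : ℝ) ^ 2 + 0 ^ 2 + 0 ^ 2 = 1
        norm_num
      · change (0 : ℝ) ^ 2 + 1 ^ 2 + 0 ^ 2 = 1
        norm_num
    have hmem : π • u ∈ intersectionBody KK := by
      right
      rw [perp_smul u π hpi.ne', full_section u hu, norm_smul, hun, Real.norm_of_nonneg hpi.le,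
        mul_one]
    have h1 := mem_smul_ball (hT2 ⟨_, hmem, rfl⟩) hr0
    rwa [map_smul, norm_smul, Real.norm_of_nonneg hpi.le] at h1
  -- directions with small sections
  have hsmall : ∀ (u : E3) (σ : ℝ), σ ^ 2 = 1 → u = !₂[1, -σ, 0] → √2 / 2.7 ≤ ‖T u‖ := by
    intro u σ hσ hu
    have hun : ‖u‖ = √2 := by
      have h : ‖u‖ ^ 2 = √2 ^ 2 := by
        rw [norm_E3, hu, two_sq]
        change (1 : ℝ) ^ 2 + (-σ) ^ 2 + 0 ^ 2 = 2
        rw [neg_sq, hσ]; norm_num
      exact (sq_eq_sq₀ (norm_nonneg _) (Real.sqrt_nonneg _)).mp h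
    have h2p : (0 : ℝ) < √2 := Real.sqrt_pos.mpr (by norm_num)
    have hu0 : u ≠ 0 := by
      rintro rfl
      rw [norm_zero] at hun
      linarith
    have hTu : 0 < ‖T u‖ := norm_pos_iff.mpr (by simpa using hu0)
    obtain ⟨x, hx, hxT⟩ := hT1 (show ‖T u‖⁻¹ • T u ∈ closedBall (0 : E3) 1 by
      rw [mem_closedBall_zero_iff, norm_smul, norm_inv, norm_norm, inv_mul_cancel₀ hTu.ne'])
    have hxu : x = ‖T u‖⁻¹ • u := by
      apply T.injective
      rw [hxT, map_smul]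
    rw [hxu] at hx
    rcases hx with h0 | h0
    · exfalso
      rcases smul_eq_zero.mp h0 with h | h
      · exact (inv_ne_zero hTu.ne') h
      · exact hu0 h
    · rw [perp_smul u _ (inv_ne_zero hTu.ne'), norm_smul, norm_inv, norm_norm, hun] at h0
      have h1 := h0.trans (small_section u σ hσ hu)
      rw [inv_mul_le_iff₀ hTu] at h1
      rw [div_le_iff₀ (by norm_num)]
      linarith
  obtain ⟨e0, he0⟩ : ∃ e : E3, e = !₂[1, 0, 0] := ⟨_, rfl⟩
  obtain ⟨e1, he1⟩ : ∃ e : E3, e = !₂[0, 1, 0] := ⟨_, rfl⟩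
  have hp : (!₂[1, -(-1), 0] : E3) = e0 + e1 := by
    rw [he0, he1]
    apply ext3
    · change (1 : ℝ) = 1 + 0
      norm_num
    · change (- -1 : ℝ) = 0 + 1
      norm_num
    · change (0 : ℝ) = 0 + 0
      norm_num
  have hm : (!₂[1, -1, 0] : E3) = e0 - e1 := by
    rw [he0, he1]
    apply ext3
    · change (1 : ℝ) = 1 - 0
      norm_num
    · change (-1 : ℝ) = 0 - 1
      norm_num
    · change (0 : ℝ) = 0 - 0
      norm_num
  have s1 := hsmall (e0 + e1) (-1) (by norm_num) hp.symm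
  have s2 := hsmall (e0 - e1) 1 (by norm_num) hm.symm
  have f1 := hfull e0 (Or.inl he0)
  have f2 := hfull e1 (Or.inr he1)
  have hpar := parallelogram_law_with_norm ℝ (T e0) (T e1)
  rw [← map_add, ← map_sub] at hpar
  have h2 := two_sq
  have q1 : 2 / 2.7 ^ 2 ≤ ‖T (e0 + e1)‖ * ‖T (e0 + e1)‖ := by
    have := mul_self_le_mul_self (by positivity) s1
    calc (2 : ℝ) / 2.7 ^ 2 = √2 / 2.7 * (√2 / 2.7) := by
          rw [div_mul_div_comm, ← sq, h2]; norm_num
      _ ≤ _ := this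
  have q2 : 2 / 2.7 ^ 2 ≤ ‖T (e0 - e1)‖ * ‖T (e0 - e1)‖ := by
    have := mul_self_le_mul_self (by positivity) s2
    calc (2 : ℝ) / 2.7 ^ 2 = √2 / 2.7 * (√2 / 2.7) := by
          rw [div_mul_div_comm, ← sq, h2]; norm_num
      _ ≤ _ := this
  have q3 : π ^ 2 * (‖T e0‖ * ‖T e0‖) ≤ r ^ 2 := by
    have := mul_self_le_mul_self (by positivity) f1
    calc π ^ 2 * (‖T e0‖ * ‖T e0‖) = π * ‖T e0‖ * (π * ‖T e0‖) := by ring
      _ ≤ r * r := this
      _ = r ^ 2 := by ring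
  have q4 : π ^ 2 * (‖T e1‖ * ‖T e1‖) ≤ r ^ 2 := by
    have := mul_self_le_mul_self (by positivity) f2
    calc π ^ 2 * (‖T e1‖ * ‖T e1‖) = π * ‖T e1‖ * (π * ‖T e1‖) := by ring
      _ ≤ r * r := this
      _ = r ^ 2 := by ring
  apply le_of_sq hr0
  have q5 : 2 / 2.7 ^ 2 + 2 / 2.7 ^ 2 ≤ 2 * (‖T e0‖ * ‖T e0‖ + ‖T e1‖ * ‖T e1‖) := by
    have q8 := add_le_add q1 q2
    linarith
  have q6 : π ^ 2 * (2 / 2.7 ^ 2 + 2 / 2.7 ^ 2) ≤
      π ^ 2 * (2 * (‖T e0‖ * ‖T e0‖ + ‖T e1‖ * ‖T e1‖)) :=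
    mul_le_mul_of_nonneg_left q5 (by positivity)
  have q7 : (π / 2.7) ^ 2 = π ^ 2 * (2 / 2.7 ^ 2 + 2 / 2.7 ^ 2) / 4 := by
    rw [div_pow]; ring
  rw [q7]
  nlinarith [q6, q3, q4]

theorem bmSet_nonempty : (bmSet (intersectionBody KK) (closedBall (0 : E3) 1)).Nonempty := by
  have hpi := Real.pi_pos
  obtain ⟨a, ha⟩ : ∃ a : ℝ, a = (7 / 8) ^ 2 * π := ⟨_, rfl⟩
  have hapos : 0 < a := by rw [ha]; positivity
  refine ⟨(64 / 49 : ℝ), by norm_num,
    LinearEquiv.smulOfNeZero ℝ E3 (a⁻¹) (inv_ne_zero hapos.ne'), ?_, ?_⟩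
  · intro x hx
    rw [mem_closedBall_zero_iff] at hx
    refine ⟨a • x, ?_, ?_⟩
    · rcases eq_or_ne (a • x) 0 with h0 | h0
      · left; exact h0
      · right
        have h1 := le_sectionVolume' (ℝ ∙ (a • x))ᗮ (finrank_perp' _ h0)
        rw [← ha] at h1
        refine le_trans ?_ h1
        rw [norm_smul, Real.norm_of_nonneg hapos.le]
        nlinarith
    · change a⁻¹ • (a • x) = x
      rw [smul_smul, inv_mul_cancel₀ hapos.ne', one_smul]
  · rintro _ ⟨x, hx, rfl⟩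
    refine ⟨((64 / 49 : ℝ)⁻¹ * a⁻¹) • x, ?_, ?_⟩
    · rw [mem_closedBall_zero_iff]
      rcases hx with rfl | hx
      · simp
      · rcases eq_or_ne x 0 with rfl | h0
        · simp
        have h1 := hx.trans (sectionVolume_le _ (finrank_perp' x h0))
        rw [norm_smul, Real.norm_of_nonneg (by positivity)]
        have h2 : (64 / 49 : ℝ)⁻¹ * a⁻¹ = π⁻¹ := by
          rw [ha]; field_simp; norm_num
        rw [h2, inv_mul_le_iff₀ hpi, mul_one]
        exact h1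
    · change (64 / 49 : ℝ) • (((64 / 49 : ℝ)⁻¹ * a⁻¹) • x) = a⁻¹ • x
      rw [smul_smul, ← mul_assoc, mul_inv_cancel₀ (by norm_num), one_mul]

/-- **Result.**  There is an origin-symmetric convex body `K` in three-dimensional Euclidean space
such that the Banach-Mazur distance from its intersection body to the ball is larger than the
Banach-Mazur distance from `K` to the ball. -/
theorem result : ∃ K : Set (EuclideanSpace ℝ (Fin 3)),
    IsCompact K ∧ Convex ℝ K ∧ (interior K).Nonempty ∧ (∀ x ∈ K, -x ∈ K) ∧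
      (bmSet K (closedBall 0 1)).Nonempty ∧ (bmSet (intersectionBody K) (closedBall 0 1)).Nonempty ∧
      bmDist K (closedBall 0 1) < bmDist (intersectionBody K) (closedBall 0 1) := by
  refine ⟨KK, KK_compact, KK_convex, ?_, KK_symm, ⟨_, mem_bmSet_KK⟩, bmSet_nonempty, ?_⟩
  · refine ⟨0, ?_⟩
    rw [mem_interior_iff_mem_nhds]
    exact Filter.mem_of_superset (closedBall_mem_nhds (0 : E3) (by norm_num)) ball_subset_KK
  · refine lt_of_le_of_lt bmDist_KK_le ?_
    have h : π / 2.7 ≤ bmDist (intersectionBody KK) (closedBall (0 : E3) 1) :=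
      le_csInf bmSet_nonempty le_of_mem_bmSet
    refine lt_of_lt_of_le ?_ h
    have := Real.pi_gt_d2
    rw [lt_div_iff₀ (by norm_num)]
    linarith

end Pool.Agent.Results.MP_4e5529_gt.DistanceIncreases
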